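import Mathlib

/-!
# MP_836f85_an: the bound `‖w‖₁ ≤ ‖c‖ I(1)` fails, already for the density `ρ = 1`

Degree `3`, knots `0,0,0,0,1,1,1,1`, points `0, 1/10, 9/10, 1`, density `1`.
-/

namespace Pool.Agent.Results.MP_836f85_an.CubicUniform

open Set

/-- Degree-`0` B-splines for the knots `ξ` on a domain with right end point `b`: the indicator of
`[ξ_i, ξ_{i+1})`, where the last nonempty interval is closed at `b`. -/
noncomputable def B0 (ξ : ℕ → ℝ) (b : ℝ) (i : ℕ) (x : ℝ) : ℝ :=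
  open Classical in
  if (x < b ∧ ξ i ≤ x ∧ x < ξ (i + 1)) ∨ (x = b ∧ ξ i < ξ (i + 1) ∧ ξ (i + 1) = b) then 1 else 0

/-- B-splines of degree `q` by the Cox-de Boor recursion (with `0 / 0 = 0`). -/
noncomputable def B (ξ : ℕ → ℝ) (b : ℝ) : ℕ → ℕ → ℝ → ℝ
  | 0, i, x => B0 ξ b i x
  | q + 1, i, x => (x - ξ i) / (ξ (i + q + 1) - ξ i) * B ξ b q i x +
      (ξ (i + q + 2) - x) / (ξ (i + q + 2) - ξ (i + 1)) * B ξ b q (i + 1) x

/-- The B-splines `B_0, …, B_{n-1}` of degree `p` on `Ω = [ξ_p, ξ_n]` (knots indexed from `0`). -/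
noncomputable def bspline (p n : ℕ) (ξ : ℕ → ℝ) (i : Fin n) (x : ℝ) : ℝ := B ξ (ξ n) p i x

/-- The domain `Ω = [ξ_p, ξ_n]`. -/
def Omega (p n : ℕ) (ξ : ℕ → ℝ) : Set ℝ := Icc (ξ p) (ξ n)

/-- Knot vectors `ξ_0 ≤ ⋯ ≤ ξ_{n+p}` of degree `p ≥ 1` with nondegenerate domain. -/
def IsKnotVector (p n : ℕ) (ξ : ℕ → ℝ) : Prop :=
  1 ≤ p ∧ (∀ i j, i ≤ j → j ≤ n + p → ξ i ≤ ξ j) ∧ ξ p < ξ n

/-- Unisolvent points. -/
def Unisolvent (p n : ℕ) (ξ : ℕ → ℝ) (x : Fin n → ℝ) : Prop :=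
  StrictMono x ∧ (∀ i, x i ∈ Omega p n ξ) ∧ ∀ i, 0 < bspline p n ξ i (x i)

/-- The functional `I(f) = ∫_Ω ρ f`. -/
noncomputable def I (p n : ℕ) (ξ : ℕ → ℝ) (ρ f : ℝ → ℝ) : ℝ := ∫ t in (ξ p)..(ξ n), ρ t * f t

/-- The interpolatory quadrature weights: `∑ w_k s(x_k) = I(s)` for every spline
`s = ∑ a_i B_i`. -/
def IsWeights (p n : ℕ) (ξ : ℕ → ℝ) (ρ : ℝ → ℝ) (x w : Fin n → ℝ) : Prop :=
  ∀ a : Fin n → ℝ, ∑ k, w k * (∑ i, a i * bspline p n ξ i (x k)) =
    I p n ξ ρ (fun t => ∑ i, a i * bspline p n ξ i t)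

/-- `c` is the equioscillating spline: `c ∈ 𝕊` and `c(x_i) = (-1)^i` (indices from `0`). -/
def IsEquiosc (p n : ℕ) (ξ : ℕ → ℝ) (x : Fin n → ℝ) (c : ℝ → ℝ) : Prop :=
  (∃ a : Fin n → ℝ, ∀ t ∈ Omega p n ξ, c t = ∑ i, a i * bspline p n ξ i t) ∧
    ∀ i : Fin n, c (x i) = (-1) ^ (i : ℕ)

/-- The sup norm on `Ω`. -/
noncomputable def supNorm (p n : ℕ) (ξ : ℕ → ℝ) (c : ℝ → ℝ) : ℝ :=
  sSup ((fun t => |c t|) '' Omega p n ξ)

/-! ### The example -/

/-- The knots `0,0,0,0,1,1,1,1`. -/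
noncomputable def kn (i : ℕ) : ℝ := if i ≤ 3 then 0 else 1

/-- The points. -/
noncomputable def pts : Fin 4 → ℝ := ![0, 1 / 10, 9 / 10, 1]

/-- The weights. -/
noncomputable def wts : Fin 4 → ℝ := ![-23 / 54, 25 / 27, 25 / 27, -23 / 54]

lemma kn_small {i : ℕ} (h : i ≤ 3) : kn i = 0 := by simp [kn, h]

lemma kn_large {i : ℕ} (h : 4 ≤ i) : kn i = 1 := by
  have : ¬ i ≤ 3 := by omega
  simp [kn, this]

lemma B0_three {x : ℝ} (h0 : 0 ≤ x) (h1 : x ≤ 1) : B0 kn 1 3 x = 1 := by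
  unfold B0
  rw [kn_small le_rfl, kn_large le_rfl]
  rcases lt_or_eq_of_le h1 with h | h
  · simp [h, h0]
  · simp [h]

lemma B0_ne {i : ℕ} (hi : i ≠ 3) (x : ℝ) : B0 kn 1 i x = 0 := by
  unfold B0
  have : kn i = kn (i + 1) := by
    rcases Nat.lt_or_ge i 3 with h | h
    · rw [kn_small (by omega), kn_small (by omega)]
    · rw [kn_large (by omega), kn_large (by omega)]
  rw [this]
  rw [if_neg]
  rintro (⟨_, h2, h3⟩ | ⟨_, h2, _⟩)
  · linarith
  · exact lt_irrefl _ h2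

lemma bs0 {x : ℝ} (h0 : 0 ≤ x) (h1 : x ≤ 1) : bspline 3 4 kn 0 x = (1 - x) ^ 3 := by
  simp only [bspline, B, kn_large (le_refl 4)]
  simp [kn, B0_three h0 h1, B0_ne]
  ring

lemma bs1 {x : ℝ} (h0 : 0 ≤ x) (h1 : x ≤ 1) : bspline 3 4 kn 1 x = 3 * x * (1 - x) ^ 2 := by
  simp only [bspline, B, kn_large (le_refl 4)]
  simp [kn, B0_three h0 h1, B0_ne]
  ring

lemma bs2 {x : ℝ} (h0 : 0 ≤ x) (h1 : x ≤ 1) : bspline 3 4 kn 2 x = 3 * x ^ 2 * (1 - x) := by
  simp only [bspline, B, kn_large (le_refl 4)]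
  simp [kn, B0_three h0 h1, B0_ne]
  ring

lemma bs3 {x : ℝ} (h0 : 0 ≤ x) (h1 : x ≤ 1) : bspline 3 4 kn 3 x = x ^ 3 := by
  simp only [bspline, B, kn_large (le_refl 4)]
  simp [kn, B0_three h0 h1, B0_ne]
  ring

lemma kn4 : kn 4 = 1 := kn_large le_rfl

lemma kn3 : kn 3 = 0 := kn_small le_rfl

/-- The bound fails for `ρ = 1`: there are a degree, a knot vector, unisolvent points, the
corresponding interpolatory weights `w` and equioscillating spline `c` with
`‖c‖ I(1) < ‖w‖₁`. -/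
theorem result : ∃ (p n : ℕ) (ξ : ℕ → ℝ) (x w : Fin n → ℝ) (c : ℝ → ℝ),
    IsKnotVector p n ξ ∧ Unisolvent p n ξ x ∧ IsWeights p n ξ (fun _ => 1) x w ∧
      IsEquiosc p n ξ x c ∧
      supNorm p n ξ c * I p n ξ (fun _ => 1) (fun _ => 1) < ∑ k, |w k| := by
  have p0 : pts 0 = 0 := rfl
  have p1 : pts 1 = 1 / 10 := rfl
  have p2 : pts 2 = 9 / 10 := rfl
  have p3 : pts 3 = 1 := rfl
  have w0 : wts 0 = -23 / 54 := rfl
  have w1 : wts 1 = 25 / 27 := rfl
  have w2 : wts 2 = 25 / 27 := rfl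
  have w3 : wts 3 = -23 / 54 := rfl
  have hc : ∀ t : ℝ, 0 ≤ t → t ≤ 1 → ∀ a : Fin 4 → ℝ, ∑ i, a i * bspline 3 4 kn i t =
      a 0 * (1 - t) ^ 3 + a 1 * (3 * t * (1 - t) ^ 2) + a 2 * (3 * t ^ 2 * (1 - t)) +
        a 3 * t ^ 3 := by
    intro t h0 h1 a
    rw [Fin.sum_univ_four, bs0 h0 h1, bs1 h0 h1, bs2 h0 h1, bs3 h0 h1]
  refine ⟨3, 4, kn, pts, wts, fun t => (21 * (2 * t - 1) - 25 * (2 * t - 1) ^ 3) / 4, ?_, ?_, ?_,
    ?_, ?_⟩
  · refine ⟨by norm_num, ?_, by rw [kn3, kn4]; norm_num⟩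
    intro i j hij _
    unfold kn
    split_ifs <;> first | (exfalso; omega) | norm_num
  · refine ⟨?_, ?_, ?_⟩
    · intro i j hij
      fin_cases i <;> fin_cases j <;> simp_all [pts] <;> norm_num at *
    · intro i
      simp only [Omega, kn3, kn4]
      fin_cases i
      · change pts 0 ∈ _; rw [p0]; constructor <;> norm_num
      · change pts 1 ∈ _; rw [p1]; constructor <;> norm_num
      · change pts 2 ∈ _; rw [p2]; constructor <;> norm_num
      · change pts 3 ∈ _; rw [p3]; constructor <;> norm_num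
    · intro i
      fin_cases i
      · change 0 < bspline 3 4 kn 0 (pts 0); rw [p0, bs0 (by norm_num) (by norm_num)]; norm_num
      · change 0 < bspline 3 4 kn 1 (pts 1); rw [p1, bs1 (by norm_num) (by norm_num)]; norm_num
      · change 0 < bspline 3 4 kn 2 (pts 2); rw [p2, bs2 (by norm_num) (by norm_num)]; norm_num
      · change 0 < bspline 3 4 kn 3 (pts 3); rw [p3, bs3 (by norm_num) (by norm_num)]; norm_num
  · intro a
    have hI : I 3 4 kn (fun _ => 1) (fun t => ∑ i, a i * bspline 3 4 kn i t) =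
        (a 0 + a 1 + a 2 + a 3) / 4 := by
      unfold I
      rw [kn3, kn4]
      have h1 : ∫ t in (0 : ℝ)..1, (1 : ℝ) * (∑ i, a i * bspline 3 4 kn i t) =
          ∫ t in (0 : ℝ)..1, (a 0 * (1 - t) ^ 3 + a 1 * (3 * t * (1 - t) ^ 2) +
            a 2 * (3 * t ^ 2 * (1 - t)) + a 3 * t ^ 3) := by
        apply intervalIntegral.integral_congr
        intro t ht
        rw [uIcc_of_le (by norm_num)] at ht
        simp only [one_mul]
        exact hc t ht.1 ht.2 a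
      rw [h1]
      have hF : ∀ t ∈ uIcc (0 : ℝ) 1, HasDerivAt (fun t : ℝ => a 0 * (-(1 - t) ^ 4 / 4) +
          a 1 * (3 * t ^ 2 / 2 - 2 * t ^ 3 + 3 * t ^ 4 / 4) + a 2 * (t ^ 3 - 3 * t ^ 4 / 4) +
          a 3 * (t ^ 4 / 4)) (a 0 * (1 - t) ^ 3 + a 1 * (3 * t * (1 - t) ^ 2) +
            a 2 * (3 * t ^ 2 * (1 - t)) + a 3 * t ^ 3) t := by
        intro t _
        have e1 : HasDerivAt (fun t : ℝ => -(1 - t) ^ 4 / 4) ((1 - t) ^ 3) t := by
          have := (((hasDerivAt_id t).const_sub 1).pow 4).neg.div_const 4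
          convert! this using 1
          simp
        have e2 : HasDerivAt (fun t : ℝ => 3 * t ^ 2 / 2 - 2 * t ^ 3 + 3 * t ^ 4 / 4)
            (3 * t * (1 - t) ^ 2) t := by
          have := ((((hasDerivAt_pow 2 t).const_mul 3).div_const 2).sub
            ((hasDerivAt_pow 3 t).const_mul 2)).add (((hasDerivAt_pow 4 t).const_mul 3).div_const 4)
          convert! this using 1
          simp
          ring
        have e3 : HasDerivAt (fun t : ℝ => t ^ 3 - 3 * t ^ 4 / 4) (3 * t ^ 2 * (1 - t)) t := by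
          have := (hasDerivAt_pow 3 t).sub (((hasDerivAt_pow 4 t).const_mul 3).div_const 4)
          convert! this using 1
          simp
          ring
        have e4 : HasDerivAt (fun t : ℝ => t ^ 4 / 4) (t ^ 3) t := by
          have := (hasDerivAt_pow 4 t).div_const 4
          convert! this using 1
          simp
        exact (((e1.const_mul (a 0)).add (e2.const_mul (a 1))).add (e3.const_mul (a 2))).add
          (e4.const_mul (a 3))
      rw [intervalIntegral.integral_eq_sub_of_hasDerivAt hF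
        ((by fun_prop : Continuous fun t : ℝ => a 0 * (1 - t) ^ 3 + a 1 * (3 * t * (1 - t) ^ 2) +
            a 2 * (3 * t ^ 2 * (1 - t)) + a 3 * t ^ 3).intervalIntegrable _ _)]
      ring
    rw [hI, Fin.sum_univ_four, p0, p1, p2, p3, w0, w1, w2, w3,
      hc 0 le_rfl zero_le_one, hc (1 / 10) (by norm_num) (by norm_num),
      hc (9 / 10) (by norm_num) (by norm_num), hc 1 zero_le_one le_rfl]
    ring
  · refine ⟨⟨![1, -8, 8, -1], ?_⟩, ?_⟩
    · intro t ht
      simp only [Omega, kn3, kn4] at ht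
      rw [hc t ht.1 ht.2]
      simp
      ring
    · intro i
      fin_cases i
      · change _ = (-1 : ℝ) ^ (0 : ℕ); simp only [Fin.zero_eta]; rw [p0]; norm_num
      · change (21 * (2 * pts 1 - 1) - 25 * (2 * pts 1 - 1) ^ 3) / 4 = (-1 : ℝ) ^ (1 : ℕ)
        rw [p1]; norm_num
      · change (21 * (2 * pts 2 - 1) - 25 * (2 * pts 2 - 1) ^ 3) / 4 = (-1 : ℝ) ^ (2 : ℕ)
        rw [p2]; norm_num
      · change (21 * (2 * pts 3 - 1) - 25 * (2 * pts 3 - 1) ^ 3) / 4 = (-1 : ℝ) ^ (3 : ℕ)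
        rw [p3]; norm_num
  · have hI1 : I 3 4 kn (fun _ => 1) (fun _ => 1) = 1 := by
      unfold I
      rw [kn3, kn4]
      simp
    have hsup : supNorm 3 4 kn (fun t => (21 * (2 * t - 1) - 25 * (2 * t - 1) ^ 3) / 4) ≤ 2 := by
      unfold supNorm
      simp only [Omega, kn3, kn4]
      apply csSup_le
      · exact ⟨_, 0, by constructor <;> norm_num, rfl⟩
      · rintro _ ⟨t, ht, rfl⟩
        obtain ⟨h0, h1⟩ := ht
        simp only
        have key : ∀ y : ℝ, 0 ≤ y → y ≤ 1 → |(21 * y - 25 * y ^ 3) / 4| ≤ 2 := by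
          intro y hy0 hy1
          rw [abs_le]
          constructor
          · nlinarith [mul_nonneg hy0 (sub_nonneg.mpr hy1), mul_nonneg (mul_nonneg hy0 hy0)
              (sub_nonneg.mpr hy1)]
          · have : 25 * y ^ 3 - 21 * y + 8 = (y - 53 / 100) ^ 2 * (25 * y + 53 / 2) +
                27 / 400 * y + (8 - 50 * (53 / 100) ^ 3) := by ring
            have h3 : 0 ≤ (y - 53 / 100) ^ 2 * (25 * y + 53 / 2) := by positivity
            norm_num at this
            nlinarith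
        rcases le_total 0 (2 * t - 1) with h | h
        · exact key _ h (by linarith)
        · have := key (-(2 * t - 1)) (by linarith) (by linarith)
          have e : (21 * -(2 * t - 1) - 25 * (-(2 * t - 1)) ^ 3) / 4 =
              -((21 * (2 * t - 1) - 25 * (2 * t - 1) ^ 3) / 4) := by ring
          rw [e, abs_neg] at this
          exact this
    rw [hI1, Fin.sum_univ_four, w0, w1, w2, w3, mul_one]
    refine lt_of_le_of_lt hsup ?_
    rw [abs_of_neg (by norm_num), abs_of_pos (by norm_num)]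
    norm_num

end Pool.Agent.Results.MP_836f85_an.CubicUniform
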